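import Pool.Agent.Helper49K9.LP.Dual2

/-!
Open crossings which cut a region from the free sides.
-/

set_option autoImplicit false

namespace H49AT

open H974 hiding bd
open H731C H731R H731A H731G Finset H49LP

/-- the open edges together with all edges outside of the rectangle -/
def gt (m n : ℤ) (G : Finset Edg) : Set Edg := {e | e ∈ G ∨ e ∉ RE 0 m 0 n}

/-- the closed edges of the rectangle -/
def cl (m n : ℤ) (G : Finset Edg) : Set Edg := {e | e ∉ G ∧ e ∈ RE 0 m 0 n}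

/-- the faces of the region -/
def RG (x1 x2 y2 : ℤ) (f : Vtx) : Prop := (x1 ≤ f.1 ∧ f.1 < x2) ∧ f.2 < y2

theorem cl_gt {m n : ℤ} {G : Finset Edg} {e : Edg} (h : e ∈ cl m n G) : e ∈ (gt m n G)ᶜ := by
  rintro (h1 | h1)
  · exact h.1 h1
  · exact h1 h.2

theorem cl_low {m n : ℤ} {G : Finset Edg} {e : Edg} (h : e ∈ cl m n G) :
    (-1 ≤ (dsrc e).1 ∧ -1 ≤ (dsrc e).2) ∧ (-1 ≤ (dtgt e).1 ∧ -1 ≤ (dtgt e).2) := by
  obtain ⟨p, q, _ | _⟩ := e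
  · have h2 := h.2
    rw [mem_RE_false] at h2
    simp only [dsrc_false, dtgt_mk]
    omega
  · have h2 := h.2
    rw [mem_RE_true] at h2
    simp only [dsrc_true, dtgt_mk]
    omega

theorem block {m n x1 x2 y2 h : ℤ} (hh : 1 ≤ h) {G : Finset Edg}
    (hT : ∃ y y', (y2 - h ≤ y' ∧ y' ≤ y2) ∧
      Reach (gt m n G ∩ ↑(LRE x1 x2 (y2 - h) y2)) (x1, y) (x2, y'))
    (hR : ∃ x x', (x2 - h ≤ x' ∧ x' ≤ x2) ∧
      Reach (gt m n G ∩ ↑(TBE (x2 - h) x2 (-1) y2)) (x, -1) (x', y2))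
    {f g : Vtx} (hf : f.1 < x2 - h ∧ f.2 < y2 - h)
    (hL : (x1 ≤ -1 ∧ x1 ≤ f.1) ∨ (x1 + h ≤ f.1 ∧ ∃ x x', (x1 ≤ x' ∧ x' ≤ x1 + h) ∧
      Reach (gt m n G ∩ ↑(TBE x1 (x1 + h) (-1) y2)) (x, -1) (x', y2)))
    (hg : ¬ RG x1 x2 y2 g) (hD : DReach (cl m n G) f g) : False := by
  have hfO : RG x1 x2 y2 f := by unfold RG; omega
  obtain ⟨w, g', hw, hg', hwg, hr⟩ := U1.dlast (fun v : Vtx => ¬ RG x1 x2 y2 v) hD.symm hg
    (by simpa using hfO)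
  simp only [not_not] at hg' hr
  obtain ⟨t, t', ht', hT⟩ := hT
  obtain ⟨r, r', hr0', hR⟩ := hR
  have hcol : DReach {e | e ∈ (gt m n G)ᶜ ∧ ((x1 ≤ (dsrc e).1 ∧
      (dsrc e).1 < x2) ∧ (x1 ≤ (dtgt e).1 ∧ (dtgt e).1 < x2))} f g' :=
    hr.symm.mono (by
      rintro e ⟨h1, h2, h3⟩
      exact ⟨cl_gt h1, h2.1, h3.1⟩)
  have hrow : DReach {e | e ∈ (gt m n G)ᶜ ∧ ((-1 ≤ (dsrc e).2 ∧
      (dsrc e).2 < y2) ∧ (-1 ≤ (dtgt e).2 ∧ (dtgt e).2 < y2))} f g' :=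
    hr.symm.mono (by
      rintro e ⟨h1, h2, h3⟩
      have h4 := cl_low h1
      exact ⟨cl_gt h1, ⟨h4.1.2, h2.2⟩, ⟨h4.2.2, h3.2⟩⟩)
  obtain ⟨⟨p, q, _ | _⟩, h2, h3⟩ := hwg
  · simp only [dsrc_false, dtgt_mk] at h3
    have h4 := cl_low h2
    simp only [dsrc_false, dtgt_mk] at h4
    have hst : DReach {e | e ∈ (gt m n G)ᶜ ∧ ((-1 ≤ (dsrc e).2 ∧
      (dsrc e).2 < y2) ∧ (-1 ≤ (dtgt e).2 ∧ (dtgt e).2 < y2))} g' w := by
      refine DAdj.reach ⟨(p, q, false), ⟨cl_gt h2, ?_⟩, ?_⟩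
      · unfold RG at hg'
        simp only [dsrc_false, dtgt_mk]
        rcases h3 with ⟨h3, h5⟩ | ⟨h3, h5⟩ <;> subst h3 <;> subst h5 <;> simp only at hg' ⊢ <;>
          omega
      · simp only [dsrc_false, dtgt_mk]
        tauto
    have hall := hrow.trans hst
    have hw' : (w.1 < x1 ∨ x2 ≤ w.1) ∧ -1 ≤ w.1 := by
      unfold RG at hg' hw
      rcases h3 with ⟨h3, h5⟩ | ⟨h3, h5⟩ <;> subst h3 <;> subst h5 <;> simp only at hg' hw ⊢ <;>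
        omega
    obtain ⟨hw' | hw', hw2⟩ := hw'
    · rcases hL with hL | ⟨hf2, l, l', hl', hL⟩
      · omega
      · exact blockV (a := x1) (b := x1 + h) (by omega) hl' hL hw' hf2 hall.symm
    · exact blockV (a := x2 - h) (b := x2) (by omega) hr0' hR hf.1 hw' hall
  · simp only [dsrc_true, dtgt_mk] at h3
    have hst : DReach {e | e ∈ (gt m n G)ᶜ ∧ ((x1 ≤ (dsrc e).1 ∧
      (dsrc e).1 < x2) ∧ (x1 ≤ (dtgt e).1 ∧ (dtgt e).1 < x2))} g' w := by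
      refine DAdj.reach ⟨(p, q, true), ⟨cl_gt h2, ?_⟩, ?_⟩
      · unfold RG at hg'
        simp only [dsrc_true, dtgt_mk]
        rcases h3 with ⟨h3, h5⟩ | ⟨h3, h5⟩ <;> subst h3 <;> subst h5 <;> simp only at hg' ⊢ <;>
          omega
      · simp only [dsrc_true, dtgt_mk]
        tauto
    have hall := hcol.trans hst
    have hw' : y2 ≤ w.2 := by
      unfold RG at hg' hw
      rcases h3 with ⟨h3, h5⟩ | ⟨h3, h5⟩ <;> subst h3 <;> subst h5 <;> simp only at hg' hw ⊢ <;>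
        omega
    exact blockH (c := y2 - h) (d := y2) (by omega) ht' hT hf.2 hw' hall

/-- a top-bottom crossing, prolonged below the rectangle -/
theorem up_TB {m n a b d : ℤ} (hd : 0 ≤ d) {G : Finset Edg} (h : TBc a b 0 d G) :
    ∃ x x', (a ≤ x' ∧ x' ≤ b) ∧ Reach (gt m n G ∩ ↑(TBE a b (-1) d)) (x, -1) (x', d) := by
  obtain ⟨x, x', hx, hx', hr⟩ := h
  refine ⟨x, x', hx', ?_⟩
  have h1 : Reach (gt m n G ∩ ↑(TBE a b (-1) d)) (x, -1) (x, 0) := by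
    refine Adj.reach ⟨(x, -1, false), ⟨Or.inr ?_, ?_⟩, Or.inl ⟨rfl, rfl⟩⟩
    · rw [mem_RE_false]; omega
    · rw [mem_coe, mem_TBE_false]; omega
  refine h1.trans (hr.mono ?_)
  rintro ⟨p, q, _ | _⟩ ⟨h2, h3⟩
  · refine ⟨Or.inl h2, ?_⟩
    rw [mem_coe, mem_TBE_false] at h3 ⊢
    omega
  · refine ⟨Or.inl h2, ?_⟩
    rw [mem_coe, mem_TBE_true] at h3 ⊢
    omega

/-- a left-right crossing, prolonged to the left of the rectangle -/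
theorem up_LR {m n b c d : ℤ} (hb : 0 < b) {G : Finset Edg} (h : LRc 0 b c d G) :
    ∃ y y', (c ≤ y' ∧ y' ≤ d) ∧ Reach (gt m n G ∩ ↑(LRE (-1) b c d)) (-1, y) (b, y') := by
  obtain ⟨y, y', hy, hy', hr⟩ := h
  refine ⟨y, y', hy', ?_⟩
  have h1 : Reach (gt m n G ∩ ↑(LRE (-1) b c d)) (-1, y) (0, y) := by
    refine Adj.reach ⟨(-1, y, true), ⟨Or.inr ?_, ?_⟩, Or.inl ⟨rfl, rfl⟩⟩
    · rw [mem_RE_true]; omega
    · rw [mem_coe, mem_LRE_true]; omega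
  refine h1.trans (hr.mono ?_)
  rintro ⟨p, q, _ | _⟩ ⟨h2, h3⟩
  · refine ⟨Or.inl h2, ?_⟩
    rw [mem_coe, mem_LRE_false] at h3 ⊢
    omega
  · refine ⟨Or.inl h2, ?_⟩
    rw [mem_coe, mem_LRE_true] at h3 ⊢
    omega

theorem in_LR {m n a b c d : ℤ} {G : Finset Edg} (h : LRc a b c d G) :
    ∃ y y', (c ≤ y' ∧ y' ≤ d) ∧ Reach (gt m n G ∩ ↑(LRE a b c d)) (a, y) (b, y') := by
  obtain ⟨y, y', hy, hy', hr⟩ := h
  exact ⟨y, y', hy', hr.mono (by rintro e ⟨h1, h2⟩; exact ⟨Or.inl h1, h2⟩)⟩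

/-- an arch over the interval `[x + h, x + 2 h]` of the lower side -/
def UC (h x : ℤ) (F : Finset Edg) : Prop :=
  (TBc x (x + h) 0 (2 * h) F ∧ TBc (x + 2 * h) (x + 3 * h) 0 (2 * h) F) ∧
    LRc x (x + 3 * h) h (2 * h) F

/-- crossings along the upper and the right side -/
def TC (m n h : ℤ) (F : Finset Edg) : Prop :=
  LRc 0 m (n - h) n F ∧ TBc (m - h) m 0 n F

theorem UC_block {m n h x : ℤ} (hh : 1 ≤ h) {G : Finset Edg} (hU : UC h x G) {f g : Vtx}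
    (hf : (x + h ≤ f.1 ∧ f.1 < x + 2 * h) ∧ f.2 < h) (hg : x + 3 * h ≤ g.1 ∨ 2 * h ≤ g.2)
    (hD : DReach (cl m n G) f g) : False := by
  obtain ⟨⟨h1, h2⟩, h3⟩ := hU
  have e1 : x + 3 * h - h = x + 2 * h := by ring
  have e2 : 2 * h - h = h := by ring
  refine block (m := m) (n := n) (x1 := x) (x2 := x + 3 * h) (y2 := 2 * h) hh ?_ ?_
    (f := f) (g := g) ?_ ?_ ?_ hD
  · rw [e2]; exact in_LR h3
  · rw [e1]; exact up_TB (by omega) h2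
  · omega
  · exact Or.inr ⟨hf.1.1, up_TB (by omega) h1⟩
  · unfold RG; omega

theorem TC_block {m n h : ℤ} (hm : 1 ≤ m) (hh : 1 ≤ h) (hn : 1 ≤ n) {G : Finset Edg}
    (hU : TC m n h G) {f g : Vtx}
    (hf : (-1 ≤ f.1 ∧ f.1 < m - h) ∧ f.2 < n - h) (hg : m ≤ g.1 ∨ n ≤ g.2)
    (hD : DReach (cl m n G) f g) : False := by
  obtain ⟨h1, h2⟩ := hU
  refine block (m := m) (n := n) (x1 := -1) (x2 := m) (y2 := n) hh ?_ ?_
    (f := f) (g := g) ?_ ?_ ?_ hD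
  · exact up_LR (by omega) h1
  · exact up_TB (by omega) h2
  · omega
  · exact Or.inl ⟨le_rfl, hf.1.1⟩
  · unfold RG; omega

end H49AT
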