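import Pool.Agent.Helper49K9.AT.Block
import Pool.Agent.H985R3.IL.IL2

/-!
Probabilities of the arches and of the long crossings.
-/

set_option autoImplicit false

namespace H49AT

open H974 hiding bd
open H731C H731R H731A H731G Finset H49LP

theorem UC_prob : ∃ δ : ℝ, 0 < δ ∧ δ ≤ 1 ∧ ∀ m n h x : ℤ, 1 ≤ h → 0 ≤ x → x + 3 * h ≤ m →
    2 * h ≤ n → δ ≤ P2 (RE 0 m 0 n) (UC h x) := by
  obtain ⟨δ, hδ, H⟩ := H985IL.IL2.rswK 4
  refine ⟨min 1 (δ ^ 3), lt_min one_pos (by positivity), min_le_left _ _, ?_⟩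
  intro m n h x h1 hx hxm hn
  refine (min_le_right _ _).trans ?_
  have s1 : TBE x (x + h) 0 (2 * h) ⊆ RE 0 m 0 n :=
    TBE_subset_RE.trans (RE_subset hx (by omega) le_rfl hn)
  have s2 : TBE (x + 2 * h) (x + 3 * h) 0 (2 * h) ⊆ RE 0 m 0 n :=
    TBE_subset_RE.trans (RE_subset (by omega) (by omega) le_rfl hn)
  have s3 : LRE x (x + 3 * h) h (2 * h) ⊆ RE 0 m 0 n :=
    LRE_subset_RE.trans (RE_subset hx hxm (by omega) hn)
  have hb : ∀ w l : ℤ, 0 < w → 1 ≤ l → w ≤ ((4 : ℕ) : ℤ) * l → δ ≤ hh (1/2) w l := H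
  have k1 : δ ≤ P2 (RE 0 m 0 n) (TBc x (x + h) 0 (2 * h)) := by
    unfold P2
    rw [pr_TBc (1/2) s1]
    exact hb _ _ (by omega) (by omega) (by push_cast; omega)
  have k2 : δ ≤ P2 (RE 0 m 0 n) (TBc (x + 2 * h) (x + 3 * h) 0 (2 * h)) := by
    unfold P2
    rw [pr_TBc (1/2) s2]
    exact hb _ _ (by omega) (by omega) (by push_cast; omega)
  have k3 : δ ≤ P2 (RE 0 m 0 n) (LRc x (x + 3 * h) h (2 * h)) := by
    unfold P2
    rw [pr_LRc (1/2) s3]
    exact hb _ _ (by omega) (by omega) (by push_cast; omega)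
  have j1 := U2.step (TBc_incr _ _ _ _ _) (TBc_incr _ _ _ _ _) hδ.le k1 hδ.le k2
  have j2 := U2.step (fun F G hFG _ hF => ⟨hF.1.mono hFG, hF.2.mono hFG⟩)
    (LRc_incr _ _ _ _ _) (by positivity) j1 hδ.le k3
  refine le_trans (le_of_eq ?_) j2
  ring

theorem exp_half (N : ℕ) : Real.exp (-(N : ℝ)) ≤ (1 / 2 : ℝ) ^ N := by
  have h1 : Real.exp (-1 : ℝ) ≤ 1 / 2 := by
    rw [Real.exp_neg, one_div]
    have := Real.add_one_le_exp (1 : ℝ)
    exact inv_anti₀ (by norm_num) (by linarith)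
  calc Real.exp (-(N : ℝ)) = (Real.exp (-1 : ℝ)) ^ N := by
        rw [← Real.exp_nat_mul]; congr 1; ring
    _ ≤ (1 / 2 : ℝ) ^ N := pow_le_pow_left₀ (Real.exp_pos _).le h1 N

/-- crossings of long rectangles -/
theorem tube {w l : ℤ} (hl : 1 ≤ l) (hlw : l ≤ w) :
    Real.exp (-(200 * ((w : ℝ) / l))) ≤ hh (1/2) w l := by
  have h0 : (0:ℝ) ≤ 1/2 := by norm_num
  have h1 : (1/2:ℝ) ≤ 1 := by norm_num
  have hlR : (1 : ℝ) ≤ (l : ℝ) := by exact_mod_cast hl
  have hwR : (1 : ℝ) ≤ (w : ℝ) := by exact_mod_cast (by omega : (1 : ℤ) ≤ w)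
  rcases eq_or_lt_of_le hl with h | h
  · subst h
    obtain ⟨k, hk⟩ : ∃ k : ℕ, (k : ℤ) + 1 = w := ⟨(w - 1).toNat, by omega⟩
    have e := H985IL.IL2.hh_one k
    rw [hk] at e
    refine le_trans ?_ e
    have e2 : (1 / 4 : ℝ) ^ (k + 1) = (1 / 2 : ℝ) ^ (2 * (k + 1)) := by
      rw [pow_mul]; norm_num
    rw [e2]
    refine le_trans ?_ (exp_half _)
    rw [Real.exp_le_exp]
    have hk' : (k : ℝ) + 1 = w := by exact_mod_cast hk
    push_cast
    rw [hk']
    simp only [div_one]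
    linarith
  · obtain ⟨p, hp⟩ : ∃ p : ℤ, p = l / 2 := ⟨_, rfl⟩
    have hp1 : 1 ≤ p := by omega
    have hp2 : 2 * p ≤ l := by omega
    have hp3 : l ≤ 3 * p := by omega
    obtain ⟨k, hk⟩ : ∃ k : ℕ, (k : ℤ) = w / p := ⟨(w / p).toNat, by
      have := Int.ediv_nonneg (by omega : (0:ℤ) ≤ w) (by omega : (0 : ℤ) ≤ p)
      omega⟩
    have hk1 : (k : ℤ) * p ≤ w := by rw [hk]; exact Int.ediv_mul_le w (by omega)
    have hk2 : w < ((k : ℤ) + 1) * p := by rw [hk]; exact Int.lt_ediv_add_one_mul_self w (by omega)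
    have e := H973.hh_long k (by omega : 0 < p)
    have e2 : hh (1/2) ((8 + 6 * (k : ℤ)) * p) (2 * p) ≤ hh (1/2) w l :=
      hh_mono h0 h1 (by omega) (by nlinarith [mul_nonneg (Int.natCast_nonneg k) (by omega : (0:ℤ) ≤ p)]) hp2
    refine le_trans ?_ (e.trans e2)
    refine le_trans ?_ (exp_half _)
    rw [Real.exp_le_exp]
    push_cast
    have hk1' : (k : ℝ) * p ≤ w := by exact_mod_cast hk1
    have hp3' : (l : ℝ) ≤ 3 * p := by exact_mod_cast hp3
    have hlw' : (l : ℝ) ≤ w := by exact_mod_cast hlw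
    have hl0 : (0 : ℝ) < l := by linarith
    have g1 : (k : ℝ) ≤ 3 * (w / l) := by
      rw [← mul_div_assoc, le_div_iff₀ hl0]
      nlinarith [(Nat.cast_nonneg k : (0 : ℝ) ≤ k)]
    have g2 : (1 : ℝ) ≤ w / l := by rw [le_div_iff₀ hl0]; linarith
    linarith

theorem TC_incr (S : Finset Edg) (m n h : ℤ) : IncrE S (TC m n h) :=
  fun _ _ hFG _ hF => ⟨hF.1.mono hFG, hF.2.mono hFG⟩

theorem TC_prob {m n h : ℤ} (hh : 1 ≤ h) (hm : h ≤ m) (hn : h ≤ n) :
    Real.exp (-(200 * (((m : ℝ) + n) / h))) ≤ P2 (RE 0 m 0 n) (TC m n h) := by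
  have s1 : LRE 0 m (n - h) n ⊆ RE 0 m 0 n :=
    LRE_subset_RE.trans (RE_subset le_rfl le_rfl (by omega) le_rfl)
  have s2 : TBE (m - h) m 0 n ⊆ RE 0 m 0 n :=
    TBE_subset_RE.trans (RE_subset (by omega) le_rfl le_rfl le_rfl)
  have k1 : Real.exp (-(200 * ((m : ℝ) / h))) ≤ P2 (RE 0 m 0 n) (LRc 0 m (n - h) n) := by
    unfold P2
    rw [pr_LRc (1/2) s1]
    have e1 : m - 0 = m := by ring
    have e2 : n - (n - h) = h := by ring
    rw [e1, e2]
    exact tube hh hm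
  have k2 : Real.exp (-(200 * ((n : ℝ) / h))) ≤ P2 (RE 0 m 0 n) (TBc (m - h) m 0 n) := by
    unfold P2
    rw [pr_TBc (1/2) s2]
    have e1 : n - 0 = n := by ring
    have e2 : m - (m - h) = h := by ring
    rw [e1, e2]
    exact tube hh hn
  have j1 := U2.step (LRc_incr _ _ _ _ _) (TBc_incr _ _ _ _ _) (Real.exp_pos _).le k1
    (Real.exp_pos _).le k2
  refine le_trans (le_of_eq ?_) j1
  rw [← Real.exp_add]
  congr 1
  ring

theorem UC_local {h x : ℤ} {F S : Finset Edg} (hh : 1 ≤ h) (hS : RE x (x + 3 * h) 0 (2 * h) ⊆ S) :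
    UC h x F ↔ UC h x (F ∩ S) := by
  unfold UC
  rw [TBc_local (S := S) (F := F) ((TBE_subset_RE.trans (RE_subset le_rfl (by omega) le_rfl
      le_rfl)).trans hS : TBE x (x + h) 0 (2 * h) ⊆ S),
    TBc_local (S := S) (F := F) ((TBE_subset_RE.trans (RE_subset (by omega) le_rfl le_rfl
      le_rfl)).trans hS : TBE (x + 2 * h) (x + 3 * h) 0 (2 * h) ⊆ S),
    LRc_local (S := S) (F := F) ((LRE_subset_RE.trans (RE_subset le_rfl le_rfl (by omega)
      le_rfl)).trans hS : LRE x (x + 3 * h) h (2 * h) ⊆ S)]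

/-- the exponential moment of the number of arches -/
noncomputable def phi (h : ℤ) (M : ℕ) (F : Finset Edg) : ℝ :=
  ∏ i ∈ Finset.range M, (1 - ind (UC h (4 * h * i) F) / 2)

open Classical in
/-- the number of arches -/
noncomputable def Ng (h : ℤ) (M : ℕ) (F : Finset Edg) : ℕ :=
  ((Finset.range M).filter (fun i : ℕ => UC h (4 * h * (i : ℤ)) F)).card

theorem phi_eq (h : ℤ) (M : ℕ) (F : Finset Edg) : phi h M F = (1 / 2 : ℝ) ^ Ng h M F := by
  unfold phi Ng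
  rw [← Finset.prod_const, Finset.prod_filter]
  apply Finset.prod_congr rfl
  intro i _
  by_cases hi : UC h (4 * h * i) F
  · rw [if_pos hi, ind_of hi]; norm_num
  · rw [if_neg hi, ind_not_of hi]; norm_num

theorem phi_local {h : ℤ} (hh : 1 ≤ h) {n : ℤ} (hn : 2 * h ≤ n) (M : ℕ) (F : Finset Edg) :
    phi h M F = phi h M (F ∩ RE 0 (4 * h * M - 1) 0 n) := by
  unfold phi
  apply Finset.prod_congr rfl
  intro i hi
  rw [Finset.mem_range] at hi
  have hi' : (i : ℤ) + 1 ≤ M := by exact_mod_cast hi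
  have hi0 : (0 : ℤ) ≤ i := Int.natCast_nonneg i
  have h4 : 4 * h * ((i : ℤ) + 1) ≤ 4 * h * M := by nlinarith
  rw [ind_congr (UC_local (S := RE 0 (4 * h * M - 1) 0 n) hh
    (RE_subset (by positivity) (by linarith) le_rfl hn))]

theorem Ex_phi {δ : ℝ} (hδ1 : δ ≤ 1) (Hδ : ∀ m n h x : ℤ, 1 ≤ h → 0 ≤ x →
    x + 3 * h ≤ m → 2 * h ≤ n → δ ≤ P2 (RE 0 m 0 n) (UC h x)) {m n h : ℤ} (hh : 1 ≤ h)
    (hn : 2 * h ≤ n) (M : ℕ) (hM : 4 * h * M ≤ m) :
    Ex (fun _ => (1/2 : ℝ)) (RE 0 m 0 n) (phi h M) ≤ (1 - δ / 2) ^ M := by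
  induction M with
  | zero =>
    have : phi h 0 = fun _ => (1 : ℝ) := by
      funext F; unfold phi; simp
    rw [this, Ex_const]
    simp
  | succ M ih =>
    have hM' : 4 * h * ((M : ℤ) + 1) ≤ m := by exact_mod_cast hM
    have hM0 : (0 : ℤ) ≤ M := Int.natCast_nonneg M
    have hMh : 0 ≤ 4 * h * (M : ℤ) := by positivity
    have hM2 : 4 * h * (M : ℤ) + 4 * h ≤ m := by linarith
    have ih' := ih (by linarith)
    have e1 : phi h (M + 1) = fun F => phi h M F * (1 - ind (UC h (4 * h * M) F) / 2) := by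
      funext F; unfold phi; rw [Finset.prod_range_succ]
    rw [e1, Ex_mul_indep (U := RE 0 m 0 n) (S := RE 0 (4 * h * M - 1) 0 n)
      (T := RE (4 * h * M) (4 * h * M + 3 * h) 0 (2 * h)) (RE_subset le_rfl (by linarith) le_rfl
      le_rfl) (RE_subset hMh (by linarith) le_rfl hn) ?_ (fun F _ => phi_local hh hn M F)
      (fun F _ => by rw [ind_congr (UC_local hh (Finset.Subset.refl _))])]
    · have e2 : Ex (fun _ => (1/2 : ℝ)) (RE 0 m 0 n)
          (fun F => 1 - ind (UC h (4 * h * M) F) / 2) ≤ 1 - δ / 2 := by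
        have e3 : (fun F => 1 - ind (UC h (4 * h * M) F) / 2) =
            fun F => (1 : ℝ) - (1 / 2) * ind (UC h (4 * h * M) F) := by
          funext F; ring
        rw [e3, Ex_sub, Ex_const, Ex_mul_left]
        have e4 : δ ≤ Ex (fun _ => (1/2 : ℝ)) (RE 0 m 0 n)
            (fun F => ind (UC h (4 * h * M) F)) :=
          Hδ m n h (4 * h * M) hh hMh (by linarith) hn
        linarith
      have e5 : 0 ≤ Ex (fun _ => (1/2 : ℝ)) (RE 0 m 0 n)
          (fun F => 1 - ind (UC h (4 * h * M) F) / 2) :=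
        Ex_nonneg okhalf2 (fun F _ => by
          have := ind_le_one (UC h (4 * h * M) F)
          linarith)
      have hq : (0 : ℝ) ≤ 1 - δ / 2 := by linarith
      rw [pow_succ]
      exact mul_le_mul ih' e2 e5 (pow_nonneg hq M)
    · rw [Finset.disjoint_left]
      rintro ⟨x, y, _ | _⟩ he he'
      · rw [mem_RE_false] at he he'
        omega
      · rw [mem_RE_true] at he he'
        omega

/-- a large deviation bound for the number of arches -/
theorem chern : ∃ θ c : ℝ, 0 < θ ∧ 0 < c ∧ ∀ (m n h : ℤ) (M : ℕ), 1 ≤ h → 2 * h ≤ n →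
    4 * h * M ≤ m →
    P2 (RE 0 m 0 n) (fun F => (Ng h M F : ℝ) < θ * M) ≤ Real.exp (-(c * M)) := by
  obtain ⟨δ, hδ, hδ1, Hδ⟩ := UC_prob
  set q : ℝ := 1 - δ / 2 with hq
  have hq0 : 0 < q := by rw [hq]; linarith
  have hq1 : q < 1 := by rw [hq]; linarith
  have hlog : Real.log q < 0 := Real.log_neg hq0 hq1
  have hlog2 : 0 < Real.log 2 := Real.log_pos (by norm_num)
  refine ⟨(-Real.log q / 2) / Real.log 2, -Real.log q / 2, div_pos (by linarith) hlog2,
    by linarith, ?_⟩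
  intro m n h M hh hn hM
  set c : ℝ := -Real.log q / 2 with hc
  have h1 := Ex_phi hδ1 Hδ hh hn M hM
  have h2 : P2 (RE 0 m 0 n) (fun F => (Ng h M F : ℝ) < c / Real.log 2 * M) ≤
      Ex (fun _ => (1/2 : ℝ)) (RE 0 m 0 n) (fun F => Real.exp (c * M) * phi h M F) := by
    unfold P2 Pr
    refine Ex_mono okhalf2 (fun F _ => ?_)
    by_cases hF : (Ng h M F : ℝ) < c / Real.log 2 * M
    · rw [ind_of hF, phi_eq]
      have e1 : (1 / 2 : ℝ) ^ Ng h M F = Real.exp (-(Real.log 2 * Ng h M F)) := by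
        rw [one_div, inv_pow, Real.exp_neg, mul_comm, Real.exp_nat_mul, Real.exp_log (by norm_num)]
      rw [e1, ← Real.exp_add]
      rw [Real.one_le_exp_iff]
      have e2 : Real.log 2 * Ng h M F ≤ Real.log 2 * (c / Real.log 2 * M) :=
        mul_le_mul_of_nonneg_left hF.le hlog2.le
      have e3 : Real.log 2 * (c / Real.log 2 * M) = c * M := by field_simp
      linarith
    · rw [ind_not_of hF, phi_eq]
      positivity
  refine h2.trans ?_
  rw [Ex_mul_left]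
  have e4 : (1 - δ / 2) ^ M = Real.exp (-(2 * c) * M) := by
    rw [← hq, hc]
    have : -(2 * (-Real.log q / 2)) * (M : ℝ) = M * Real.log q := by ring
    rw [this, Real.exp_nat_mul, Real.exp_log hq0]
  rw [e4] at h1
  calc _ ≤ Real.exp (c * M) * Real.exp (-(2 * c) * M) :=
        mul_le_mul_of_nonneg_left h1 (Real.exp_pos _).le
    _ = Real.exp (-(c * M)) := by rw [← Real.exp_add]; congr 1; ring

end H49AT
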