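import Pool.Agent.Helper49K9.AT.Side
import Pool.Agent.Helper49K9.AT.Prob

/-!
The areas of the two sides of the interface.
-/

set_option autoImplicit false

namespace H49AT

open H974 hiding bd
open H731C H731R H731A H731G Finset H49LP

/-- the vertices of the rectangle -/
noncomputable def vs (m n : ℤ) : Finset Vtx := Finset.Icc 0 m ×ˢ Finset.Icc 0 n

open Classical in
/-- the number of vertices on the side of the wired sides -/
noncomputable def wa (m n : ℤ) (F : Finset Edg) : ℕ :=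
  ((vs m n).filter (fun v => WS m n (-n) m v F)).card

open Classical in
/-- the number of vertices on the side of the free sides -/
noncomputable def fa (m n : ℤ) (F : Finset Edg) : ℕ :=
  ((vs m n).filter (fun v => ¬ WS m n (-n) m v F)).card

theorem mem_vs {m n : ℤ} {v : Vtx} : v ∈ vs m n ↔ (0 ≤ v.1 ∧ v.1 ≤ m) ∧ (0 ≤ v.2 ∧ v.2 ≤ n) := by
  unfold vs
  rw [Finset.mem_product, Finset.mem_Icc, Finset.mem_Icc]

theorem sep {h i j a b : ℤ} (hh : 1 ≤ h) (ha : 0 ≤ a ∧ a < h) (hb : 0 ≤ b ∧ b < h)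
    (e : 4 * h * i + h + a = 4 * h * j + h + b) : i = j ∧ a = b := by
  have hij : i = j := by
    rcases lt_trichotomy i j with h1 | h1 | h1
    · exfalso
      have : 4 * h * (i + 1) ≤ 4 * h * j := by nlinarith
      nlinarith
    · exact h1
    · exfalso
      have : 4 * h * (j + 1) ≤ 4 * h * i := by nlinarith
      nlinarith
  subst hij
  exact ⟨rfl, by linarith⟩

open Classical in
/-- many arches give a large area -/
theorem many {h : ℤ} (hh : 1 ≤ h) {M : ℕ} {G : Finset Edg} (A : Finset Vtx)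
    (f : ℤ → ℤ → Vtx) (hf : ∀ X Y X' Y', f X Y = f X' Y' → X = X' ∧ Y = Y')
    (hA : ∀ i < M, UC h (4 * h * (i : ℤ)) G → ∀ a b : ℤ, (0 ≤ a ∧ a < h) → (0 ≤ b ∧ b < h) →
      f (4 * h * i + h + a) b ∈ A) :
    (Ng h M G : ℤ) * (h * h) ≤ A.card := by
  have key : (((Finset.range M).filter (fun i : ℕ => UC h (4 * h * (i : ℤ)) G)) ×ˢ
      (Finset.Ico (0 : ℤ) h ×ˢ Finset.Ico (0 : ℤ) h)).card ≤ A.card := by
    refine Finset.card_le_card_of_injOn
      (fun p : ℕ × (ℤ × ℤ) => f (4 * h * (p.1 : ℤ) + h + p.2.1) p.2.2) ?_ ?_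
    · rintro ⟨i, a, b⟩ hp
      rw [Finset.mem_coe, Finset.mem_product, Finset.mem_filter, Finset.mem_product,
        Finset.mem_Ico, Finset.mem_Ico, Finset.mem_range] at hp
      exact hA i hp.1.1 hp.1.2 a b hp.2.1 hp.2.2
    · rintro ⟨i, a, b⟩ hp ⟨i', a', b'⟩ hp' e
      rw [Finset.mem_coe, Finset.mem_product, Finset.mem_filter, Finset.mem_product,
        Finset.mem_Ico, Finset.mem_Ico, Finset.mem_range] at hp hp'
      obtain ⟨e1, e2⟩ := hf _ _ _ _ e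
      obtain ⟨e3, e4⟩ := sep hh hp.2.1 hp'.2.1 e1
      simp only at e2 e3 e4
      rw [Prod.mk.injEq, Prod.mk.injEq]
      exact ⟨by exact_mod_cast e3, e4, e2⟩
  rw [Finset.card_product, Finset.card_product, Int.card_Ico] at key
  have h0 : ((h - 0).toNat : ℤ) = h := by rw [Int.toNat_of_nonneg (by omega)]; ring
  have key' : ((((Finset.range M).filter (fun i : ℕ => UC h (4 * h * (i : ℤ)) G)).card *
      ((h - 0).toNat * (h - 0).toNat) : ℕ) : ℤ) ≤ A.card := by exact_mod_cast key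
  rw [Nat.cast_mul, Nat.cast_mul, h0] at key'
  exact key'

theorem boxes {m h : ℤ} (hh : 1 ≤ h) {M i : ℕ} (hM : 4 * h * M ≤ m) (hi : i < M) :
    0 ≤ 4 * h * (i : ℤ) ∧ 4 * h * (i : ℤ) + 3 * h ≤ m := by
  have h1 : (i : ℤ) + 1 ≤ M := by exact_mod_cast hi
  have h2 : (0 : ℤ) ≤ i := Int.natCast_nonneg i
  have h3 : 4 * h * ((i : ℤ) + 1) ≤ 4 * h * M := by nlinarith
  exact ⟨by positivity, by linarith⟩

open Classical in
theorem wa_ge {m n h : ℤ} (hh : 1 ≤ h) (hn : 2 * h ≤ n) {M : ℕ} (hM : 4 * h * M ≤ m)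
    (F : Finset Edg) : (Ng h M F : ℤ) * (h * h) ≤ wa m n F := by
  unfold wa
  refine many hh _ (fun X Y => (X, Y)) ?_ ?_
  · intro X Y X' Y' e
    rw [Prod.mk.injEq] at e
    exact e
  · intro i hi hU a b ha hb
    obtain ⟨h1, h2⟩ := boxes hh hM hi
    rw [Finset.mem_filter, mem_vs]
    refine ⟨⟨⟨?_, ?_⟩, ⟨hb.1, ?_⟩⟩, ?_⟩
    · show 0 ≤ 4 * h * (i : ℤ) + h + a
      linarith
    · show 4 * h * (i : ℤ) + h + a ≤ m
      linarith
    · show b ≤ n
      linarith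
    · exact WS_arch hh h1 h2 hn hU ⟨by linarith, by linarith⟩ ⟨hb.1, hb.2.le⟩

open Classical in
theorem fa_ge {m n h : ℤ} (hh : 1 ≤ h) (hn : 2 * h ≤ n) {M : ℕ} (hM : 4 * h * M ≤ m)
    (F : Finset Edg) : (Ng h M (hat m n F) : ℤ) * (h * h) ≤ fa m n F := by
  unfold fa
  refine many hh _ (fun X Y => (m - X, n - Y)) ?_ ?_
  · intro X Y X' Y' e
    rw [Prod.mk.injEq] at e
    exact ⟨by linarith [e.1], by linarith [e.2]⟩
  · intro i hi hU a b ha hb
    obtain ⟨h1, h2⟩ := boxes hh hM hi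
    rw [Finset.mem_filter, mem_vs]
    refine ⟨⟨⟨?_, ?_⟩, ⟨?_, ?_⟩⟩, ?_⟩
    · show 0 ≤ m - (4 * h * (i : ℤ) + h + a)
      linarith
    · show m - (4 * h * (i : ℤ) + h + a) ≤ m
      linarith
    · show 0 ≤ n - b
      linarith
    · show n - b ≤ n
      linarith
    · refine FS_arch hh h1 h2 hn hU ⟨?_, ?_⟩ ?_
      · show 4 * h * (i : ℤ) + h ≤ m - (m - (4 * h * (i : ℤ) + h + a))
        linarith
      · show m - (m - (4 * h * (i : ℤ) + h + a)) < 4 * h * (i : ℤ) + 2 * h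
        linarith
      · show n - (n - b) < h
        linarith

/-- the arithmetic of the upper bound -/
theorem arith {θ A L h0 m M N : ℝ} (hh0 : 0 < h0) (hA : 0 < A) (hθA : 8 * L < θ * A)
    (hm : 0 < m) (hM : m ≤ 8 * (A * h0) * M) (hθ : 0 < θ)
    (hN : N * ((A * h0) * (A * h0)) ≤ L * h0 * m) : N < θ * M := by
  have hAh : 0 < A * h0 := mul_pos hA hh0
  by_contra hno
  rw [not_lt] at hno
  have h1 : θ * M * ((A * h0) * (A * h0)) ≤ L * h0 * m :=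
    (mul_le_mul_of_nonneg_right hno (by positivity)).trans hN
  have h2 : θ * (A * h0) * m ≤ θ * (A * h0) * (8 * (A * h0) * M) :=
    mul_le_mul_of_nonneg_left hM (by positivity)
  have h3 : θ * (A * h0) * (8 * (A * h0) * M) = 8 * (θ * M * ((A * h0) * (A * h0))) := by ring
  have h4 : θ * (A * h0) * m ≤ 8 * (L * h0 * m) := by linarith
  have h5 : 8 * L * (h0 * m) < θ * A * (h0 * m) := mul_lt_mul_of_pos_right hθA (by positivity)
  have h6 : θ * (A * h0) * m = θ * A * (h0 * m) := by ring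
  have h7 : 8 * (L * h0 * m) = 8 * L * (h0 * m) := by ring
  linarith

theorem upper (K : ℕ) : ∃ c : ℝ, 0 < c ∧ c ≤ 1 ∧ ∀ m n h : ℤ, 1 ≤ m → 1 ≤ n → m ≤ K * n →
    n ≤ K * m → 1 ≤ h → (h : ℝ) ≤ c * m → (h ≤ m ∧ h ≤ n) ∧
    P2 (RE 0 m 0 n) (fun F => (wa m n F : ℤ) ≤ 4 * (K + 1) * h * m) ≤
      Real.exp (-(c * (m / h))) ∧
    P2 (RE 0 m 0 n) (fun F => (fa m n F : ℤ) ≤ 4 * (K + 1) * h * m) ≤
      Real.exp (-(c * (m / h))) := by
  obtain ⟨θ, c1, hθ, hc1, H⟩ := chern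
  obtain ⟨A, hA⟩ := exists_nat_gt (8 * (4 * ((K : ℝ) + 1)) / θ)
  have hA0 : (0 : ℝ) < (A : ℝ) := lt_trans (by positivity) hA
  have hθA : 8 * (4 * ((K : ℝ) + 1)) < θ * A := by
    rw [div_lt_iff₀ hθ] at hA
    linarith
  have hAz : (1 : ℤ) ≤ A := by
    have : 0 < A := by exact_mod_cast hA0
    exact_mod_cast this
  set c : ℝ := min (1 / (4 * A * ((K : ℝ) + 1))) (c1 / (8 * A)) with hc
  have hc0 : 0 < c := lt_min (by positivity) (by positivity)
  have hA1 : (1 : ℝ) ≤ A := by exact_mod_cast hAz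
  have hK0 : (0 : ℝ) ≤ K := Nat.cast_nonneg K
  refine ⟨c, hc0, (min_le_left _ _).trans ?_, ?_⟩
  · rw [div_le_one (by positivity)]
    nlinarith
  intro m n h0 hm hn h1 h2 hh0 hhc
  have hmR : (0 : ℝ) < m := by exact_mod_cast (by omega : (0 : ℤ) < m)
  have hhR : (0 : ℝ) < h0 := by exact_mod_cast (by omega : (0 : ℤ) < h0)
  have hK1 : (1 : ℤ) ≤ K := by
    by_contra hno
    have : (K : ℤ) = 0 := by have := Int.natCast_nonneg K; omega
    rw [this] at h1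
    omega
  -- 4 A (K + 1) h0 ≤ m
  have g1 : 4 * (A : ℤ) * ((K : ℤ) + 1) * h0 ≤ m := by
    have : 4 * (A : ℝ) * ((K : ℝ) + 1) * h0 ≤ m := by
      have e1 : (h0 : ℝ) ≤ 1 / (4 * A * ((K : ℝ) + 1)) * m :=
        hhc.trans (mul_le_mul_of_nonneg_right (min_le_left _ _) hmR.le)
      rw [div_mul_eq_mul_div, one_mul, le_div_iff₀ (by positivity)] at e1
      linarith
    exact_mod_cast this
  set h : ℤ := A * h0 with hh
  have hh1 : 1 ≤ h := by rw [hh]; nlinarith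
  have g2 : 4 * h * ((K : ℤ) + 1) ≤ m := by rw [hh]; linarith
  have g3 : h0 ≤ h := by rw [hh]; nlinarith
  have g4 : 4 * h ≤ m := by nlinarith
  have g5 : 4 * h ≤ n := by
    by_contra hno
    rw [not_le] at hno
    have e1 : (K : ℤ) * n ≤ K * (4 * h) := mul_le_mul_of_nonneg_left hno.le (by omega)
    nlinarith
  refine ⟨⟨by linarith, by linarith⟩, ?_⟩
  obtain ⟨M, hM⟩ : ∃ M : ℕ, (M : ℤ) = m / (4 * h) := ⟨(m / (4 * h)).toNat, by
    have := Int.ediv_nonneg (by omega : (0:ℤ) ≤ m) (by omega : (0 : ℤ) ≤ 4 * h)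
    omega⟩
  have hM1 : 4 * h * (M : ℤ) ≤ m := by
    rw [hM, mul_comm]; exact Int.ediv_mul_le m (by omega)
  have hM2 : m < 4 * h * ((M : ℤ) + 1) := by
    rw [hM]
    have := Int.lt_ediv_add_one_mul_self m (by omega : 0 < 4 * h)
    linarith
  have hM3 : (1 : ℤ) ≤ M := by
    rw [hM]
    exact (Int.le_ediv_iff_mul_le (by omega)).2 (by linarith)
  have hM4 : m ≤ 8 * h * M := by nlinarith
  have hM5 : (m : ℝ) ≤ 8 * ((A : ℝ) * h0) * M := by
    have : (m : ℝ) ≤ 8 * (h : ℝ) * M := by exact_mod_cast hM4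
    rw [hh] at this
    push_cast at this
    exact this
  have hexp : Real.exp (-(c1 * M)) ≤ Real.exp (-(c * (m / h0))) := by
    rw [Real.exp_le_exp, neg_le_neg_iff]
    have e1 : c * (m / h0) ≤ c1 / (8 * A) * (m / h0) :=
      mul_le_mul_of_nonneg_right (min_le_right _ _) (by positivity)
    refine e1.trans ?_
    have e2 : c1 / (8 * A) * (m / h0) = c1 * (m / (8 * (A * h0))) := by
      field_simp
    rw [e2]
    refine mul_le_mul_of_nonneg_left ?_ hc1.le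
    rw [div_le_iff₀ (by positivity)]
    linarith
  have hgen : ∀ (N : ℕ) (a : ℕ), (N : ℤ) * (h * h) ≤ a → (a : ℤ) ≤ 4 * (K + 1) * h0 * m →
      (N : ℝ) < θ * M := by
    intro N a e1 e2
    refine arith (A := (A : ℝ)) (L := 4 * ((K : ℝ) + 1)) (h0 := (h0 : ℝ)) (m := (m : ℝ)) hhR hA0
      hθA hmR hM5 hθ ?_
    have e3 : (N : ℤ) * (h * h) ≤ 4 * (K + 1) * h0 * m := e1.trans e2
    have e4 : (N : ℝ) * ((h : ℝ) * h) ≤ 4 * ((K : ℝ) + 1) * h0 * m := by exact_mod_cast e3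
    rw [hh] at e4
    push_cast at e4
    exact e4
  have hn2 : 2 * h ≤ n := by linarith
  have hH := H m n h M hh1 hn2 hM1
  constructor
  · refine le_trans ?_ (hH.trans hexp)
    refine Pr_mono okhalf2 (fun F _ hF => ?_)
    exact hgen _ _ (wa_ge hh1 hn2 hM1 F) hF
  · refine le_trans ?_ (hH.trans hexp)
    rw [← P2_hat m n (fun F => (Ng h M F : ℝ) < θ * M)]
    refine Pr_mono okhalf2 (fun F _ hF => ?_)
    exact hgen _ _ (fa_ge hh1 hn2 hM1 F) hF

/-- all vertices far from the free sides are on the side of the wired sides -/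
def NF (m n h : ℤ) (F : Finset Edg) : Prop :=
  ∀ x y : ℤ, 0 ≤ x → 0 ≤ y → x + h < m → y + h < n → WS m n (-n) m (x, y) F

/-- all vertices far from the wired sides are on the side of the free sides -/
def NW (m n h : ℤ) (F : Finset Edg) : Prop :=
  ∀ x y : ℤ, h < x → h < y → x ≤ m → y ≤ n → ¬ WS m n (-n) m (x, y) F

theorem lower {K : ℕ} {m n h : ℤ} (hm : 1 ≤ m) (hn : 1 ≤ n) (h2 : n ≤ K * m) (hh : 1 ≤ h)
    (hhm : h ≤ m) (hhn : h ≤ n) :
    Real.exp (-(200 * ((K : ℝ) + 1) * (m / h))) ≤ P2 (RE 0 m 0 n) (NF m n h) ∧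
      Real.exp (-(200 * ((K : ℝ) + 1) * (m / h))) ≤ P2 (RE 0 m 0 n) (NW m n h) := by
  have hhR : (0 : ℝ) < h := by exact_mod_cast (by omega : (0 : ℤ) < h)
  have e1 := TC_prob hh hhm hhn
  have e2 : Real.exp (-(200 * ((K : ℝ) + 1) * (m / h))) ≤
      Real.exp (-(200 * (((m : ℝ) + n) / h))) := by
    rw [Real.exp_le_exp, neg_le_neg_iff]
    have : (n : ℝ) ≤ K * m := by exact_mod_cast h2
    have e3 : ((m : ℝ) + n) / h ≤ (((K : ℝ) + 1) * m) / h :=
      div_le_div_of_nonneg_right (by linarith) hhR.le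
    calc 200 * (((m : ℝ) + n) / h) ≤ 200 * ((((K : ℝ) + 1) * m) / h) :=
          mul_le_mul_of_nonneg_left e3 (by norm_num)
      _ = 200 * ((K : ℝ) + 1) * (m / h) := by ring
  constructor
  · refine (e2.trans e1).trans (Pr_mono okhalf2 (fun F _ hF => ?_))
    intro x y hx hy hxm hyn
    exact WS_long hm hn hh hF ⟨hx, by linarith⟩ ⟨hy, by linarith⟩
  · refine (e2.trans e1).trans ?_
    rw [← P2_hat]
    refine Pr_mono okhalf2 (fun F _ hF => ?_)
    intro x y hx hy hxm hyn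
    exact FS_long hm hn hh hhm hhn hF (v := (x, y)) ⟨hx, hxm⟩ hy

theorem strip {m n h : ℤ} (hm : 1 ≤ m) (hn : 1 ≤ n) (hh : 1 ≤ h) {K : ℕ} (h2 : n ≤ K * m)
    (A : Finset Vtx) (s t : ℤ)
    (hA : A ⊆ (Finset.Icc s (s + h) ×ˢ Finset.Icc 0 n) ∪ (Finset.Icc 0 m ×ˢ Finset.Icc t (t + h))) :
    (A.card : ℤ) ≤ 4 * (K + 1) * h * m := by
  have h3 := (Finset.card_le_card hA).trans (Finset.card_union_le _ _)
  rw [Finset.card_product, Finset.card_product, Int.card_Icc, Int.card_Icc, Int.card_Icc,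
    Int.card_Icc] at h3
  have a1 : ((s + h + 1 - s).toNat : ℤ) = h + 1 := by rw [Int.toNat_of_nonneg (by omega)]; ring
  have a2 : ((n + 1 - 0).toNat : ℤ) = n + 1 := by rw [Int.toNat_of_nonneg (by omega)]; ring
  have a3 : ((m + 1 - 0).toNat : ℤ) = m + 1 := by rw [Int.toNat_of_nonneg (by omega)]; ring
  have a4 : ((t + h + 1 - t).toNat : ℤ) = h + 1 := by rw [Int.toNat_of_nonneg (by omega)]; ring
  have h4 : (A.card : ℤ) ≤ ((s + h + 1 - s).toNat : ℤ) * ((n + 1 - 0).toNat : ℤ) +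
      ((m + 1 - 0).toNat : ℤ) * ((t + h + 1 - t).toNat : ℤ) := by exact_mod_cast h3
  rw [a1, a2, a3, a4] at h4
  have b1 : (h + 1) * (n + 1) ≤ 4 * (h * n) := by nlinarith
  have b2 : (m + 1) * (h + 1) ≤ 4 * (h * m) := by nlinarith
  have b3 : h * n ≤ h * (K * m) := mul_le_mul_of_nonneg_left h2 (by omega)
  linarith [b3, (by ring : 4 * ((K : ℤ) + 1) * h * m = 4 * (h * (K * m)) + 4 * (h * m))]

theorem NF_fa {m n h : ℤ} (hm : 1 ≤ m) (hn : 1 ≤ n) (hh : 1 ≤ h) {K : ℕ} (h2 : n ≤ K * m)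
    {F : Finset Edg} (hF : NF m n h F) : (fa m n F : ℤ) ≤ 4 * (K + 1) * h * m := by
  classical
  refine strip hm hn hh h2 _ (m - h) (n - h) ?_
  rintro ⟨x, y⟩ hv
  rw [Finset.mem_filter, mem_vs] at hv
  obtain ⟨⟨h3, h4⟩, h5⟩ := hv
  simp only at h3 h4
  rw [Finset.mem_union, Finset.mem_product, Finset.mem_product, Finset.mem_Icc, Finset.mem_Icc,
    Finset.mem_Icc, Finset.mem_Icc]
  simp only
  by_contra hno
  exact h5 (hF x y h3.1 h4.1 (by omega) (by omega))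

theorem NW_wa {m n h : ℤ} (hm : 1 ≤ m) (hn : 1 ≤ n) (hh : 1 ≤ h) {K : ℕ} (h2 : n ≤ K * m)
    {F : Finset Edg} (hF : NW m n h F) : (wa m n F : ℤ) ≤ 4 * (K + 1) * h * m := by
  classical
  refine strip hm hn hh h2 _ 0 0 ?_
  rintro ⟨x, y⟩ hv
  rw [Finset.mem_filter, mem_vs] at hv
  obtain ⟨⟨h3, h4⟩, h5⟩ := hv
  simp only at h3 h4
  rw [Finset.mem_union, Finset.mem_product, Finset.mem_product, Finset.mem_Icc, Finset.mem_Icc,
    Finset.mem_Icc, Finset.mem_Icc]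
  simp only
  by_contra hno
  exact hF x y (by omega) (by omega) h3.2 h4.2 h5

theorem main (K : ℕ) : ∃ c C : ℝ, 0 < c ∧ 0 < C ∧ ∀ m n h : ℤ, 1 ≤ m → 1 ≤ n → m ≤ K * n →
    n ≤ K * m → 1 ≤ h → (h : ℝ) ≤ c * m →
    (Real.exp (-(C * (m / h))) ≤ P2 (RE 0 m 0 n) (NF m n h) ∧
      P2 (RE 0 m 0 n) (NF m n h) ≤
        P2 (RE 0 m 0 n) (fun F => (fa m n F : ℤ) ≤ 4 * (K + 1) * h * m) ∧
      P2 (RE 0 m 0 n) (fun F => (fa m n F : ℤ) ≤ 4 * (K + 1) * h * m) ≤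
        Real.exp (-(c * (m / h)))) ∧
    (Real.exp (-(C * (m / h))) ≤ P2 (RE 0 m 0 n) (NW m n h) ∧
      P2 (RE 0 m 0 n) (NW m n h) ≤
        P2 (RE 0 m 0 n) (fun F => (wa m n F : ℤ) ≤ 4 * (K + 1) * h * m) ∧
      P2 (RE 0 m 0 n) (fun F => (wa m n F : ℤ) ≤ 4 * (K + 1) * h * m) ≤
        Real.exp (-(c * (m / h)))) := by
  obtain ⟨c, hc, -, H⟩ := upper K
  refine ⟨c, 200 * ((K : ℝ) + 1), hc, by positivity, ?_⟩
  intro m n h hm hn h1 h2 hh hhc
  obtain ⟨⟨g1, g2⟩, g3, g4⟩ := H m n h hm hn h1 h2 hh hhc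
  obtain ⟨g5, g6⟩ := lower (K := K) hm hn h2 hh g1 g2
  exact ⟨⟨g5, Pr_mono okhalf2 (fun F _ hF => NF_fa hm hn hh h2 hF), g4⟩,
    ⟨g6, Pr_mono okhalf2 (fun F _ hF => NW_wa hm hn hh h2 hF), g3⟩⟩

end H49AT
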