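import Pool.Agent.Helper49K9.AT.Block

/-!
The sides of the vertices under an arch and below the long crossings.
-/

set_option autoImplicit false

namespace H49AT

open H974 hiding bd
open H731C H731R H731A H731G Finset H49LP

theorem WS_col {m n : ℤ} (hm : 1 ≤ m) (hn : 1 ≤ n) {x y : ℤ} (hx : 0 ≤ x ∧ x ≤ m)
    (hy : 0 ≤ y ∧ y ≤ n) {F : Finset Edg}
    (h : ∀ s, 0 ≤ s → s < y → ¬ FB m n (-n) m (x, s) F) : WS m n (-n) m (x, y) F := by
  refine ⟨x, by omega, ?_⟩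
  rw [bd_bot hm hn hx.1 hx.2]
  refine N3.vpath hy.1 (fun t h1 h2 => ?_)
  rw [mem_coe, mem_sdiff]
  refine ⟨by rw [mem_RE_false]; omega, fun h3 => h t h1 h2 ?_⟩
  rw [mem_bar] at h3
  exact h3.2.2.2

theorem FB_end {m n : ℤ} (hm : 1 ≤ m) (hn : 1 ≤ n) {f : Vtx} {F : Finset Edg}
    (h : FB m n (-n) m f F) : ∃ g : Vtx, (m ≤ g.1 ∨ n ≤ g.2) ∧ DReach (cl m n F) f g := by
  obtain ⟨j, hj, hr⟩ := h
  have hj' : m ≤ j ∧ j < 2 * m + n := by omega
  obtain ⟨-, h5⟩ := dv_free hm hn hj'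
  refine ⟨ofc m n j, ?_, hr.symm.mono (by rintro e ⟨h1, h2⟩; exact ⟨h1, h2⟩)⟩
  unfold dv at h5
  simp only at h5
  omega

/-- under an open arch the vertices are on the side of the wired sides -/
theorem WS_arch {m n h x : ℤ} (hh : 1 ≤ h) (hx : 0 ≤ x) (hxm : x + 3 * h ≤ m) (hn : 2 * h ≤ n)
    {F : Finset Edg} (hU : UC h x F) {X Y : ℤ} (hX : x + h ≤ X ∧ X < x + 2 * h)
    (hY : 0 ≤ Y ∧ Y ≤ h) : WS m n (-n) m (X, Y) F := by
  refine WS_col (by omega) (by omega) (by omega) (by omega) ?_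
  intro s h1 h2 hF
  obtain ⟨g, hg, hD⟩ := FB_end (by omega) (by omega) hF
  exact UC_block hh hU (f := (X, s)) (g := g) (by simp only; omega) (by omega) hD

/-- below the long open crossings the vertices are on the side of the wired sides -/
theorem WS_long {m n h : ℤ} (hm : 1 ≤ m) (hn : 1 ≤ n) (hh : 1 ≤ h) {F : Finset Edg}
    (hU : TC m n h F) {X Y : ℤ} (hX : 0 ≤ X ∧ X < m - h)
    (hY : 0 ≤ Y ∧ Y ≤ n - h) : WS m n (-n) m (X, Y) F := by
  refine WS_col (by omega) (by omega) (by omega) (by omega) ?_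
  intro s h1 h2 hF
  obtain ⟨g, hg, hD⟩ := FB_end (by omega) (by omega) hF
  exact TC_block hm hh hn hU (f := (X, s)) (g := g) (by simp only; omega) (by omega) hD

theorem FS_of_block {m n : ℤ} (hm : 1 ≤ m) (hn : 1 ≤ n) {v : Vtx} {F : Finset Edg}
    (H : ∀ g : Vtx, (m ≤ g.1 ∨ n ≤ g.2) →
      DReach (cl m n (wdg m n (-n) m (hat m n F))) (dv m n v) g → False) :
    ¬ WS m n (-n) m v F := by
  intro hWS
  obtain ⟨u, hu, hr⟩ := WS_inn hm hn hWS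
  have key : ∀ w, Reach {e | inn m n e ∧ e ∉ bar m n (-n) m F} u w →
      DReach (cl m n (wdg m n (-n) m (hat m n F))) (dv m n u) (dv m n w) := by
    intro w hw
    induction hw with
    | refl => exact DReach.refl _ _
    | @tail v w _ hs ih =>
      obtain ⟨e, ⟨hi, he⟩, hc⟩ := hs
      refine ih.trans (DAdj.reach ?_)
      have hadj : DAdj (cl m n (wdg m n (-n) m (hat m n F))) (dv m n (src e))
          (dv m n (tgt e)) :=
        ⟨de m n e, ⟨fun h => he (wdg_bar hm hn hi h), (inn_de hi).1⟩,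
          Or.inr ⟨dsrc_de m n e, dtgt_de m n e⟩⟩
      rcases hc with ⟨h3, h4⟩ | ⟨h3, h4⟩
      · rw [← h3, ← h4]; exact hadj
      · rw [← h3, ← h4]; exact hadj.symm
  refine H (dv m n u) ?_ (key v hr).symm
  unfold dv
  simp only
  omega

theorem VA_bot {m n x : ℤ} (hm : 1 ≤ m) (hn : 1 ≤ n) (hx : 0 ≤ x ∧ x ≤ m) {G : Finset Edg} :
    VA m n (-n) m (x, 0) G := VA_wired hm hn (Or.inr ⟨rfl, hx.1, hx.2⟩)

theorem VA_left {m n y : ℤ} (hm : 1 ≤ m) (hn : 1 ≤ n) (hy : 0 ≤ y ∧ y ≤ n) {G : Finset Edg} :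
    VA m n (-n) m (0, y) G := VA_wired hm hn (Or.inl ⟨rfl, hy.1, hy.2⟩)

/-- a top-bottom crossing which starts at the lower side belongs to the wired cluster -/
theorem TB_wdg {m n a b d : ℤ} (hm : 1 ≤ m) (hn : 1 ≤ n) (ha : 0 ≤ a) (hb : b ≤ m) (hd : d ≤ n)
    {G : Finset Edg} (h : TBc a b 0 d G) : TBc a b 0 d (wdg m n (-n) m G) := by
  obtain ⟨x, x', hx, hx', hr⟩ := h
  have s : TBE a b 0 d ⊆ RE 0 m 0 n := TBE_subset_RE.trans (RE_subset ha hb le_rfl hd)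
  exact ⟨x, x', hx, hx', (wdg_reach s (VA_bot hm hn (by omega)) hr).1⟩

theorem TC_wdg {m n h : ℤ} (hm : 1 ≤ m) (hn : 1 ≤ n) (hh : 1 ≤ h) (hhm : h ≤ m) (hhn : h ≤ n)
    {G : Finset Edg} (hU : TC m n h G) : TC m n h (wdg m n (-n) m G) := by
  refine ⟨?_, TB_wdg hm hn (by omega) le_rfl le_rfl hU.2⟩
  obtain ⟨y, y', hy, hy', hr⟩ := hU.1
  have s : LRE 0 m (n - h) n ⊆ RE 0 m 0 n :=
    LRE_subset_RE.trans (RE_subset le_rfl le_rfl (by omega) le_rfl)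
  exact ⟨y, y', hy, hy', (wdg_reach s (VA_left hm hn (by omega)) hr).1⟩

theorem UC_wdg {m n h x : ℤ} (hh : 1 ≤ h) (hx : 0 ≤ x) (hxm : x + 3 * h ≤ m) (hn : 2 * h ≤ n)
    {G : Finset Edg} (hU : UC h x G) : UC h x (wdg m n (-n) m G) := by
  have hm1 : 1 ≤ m := by omega
  have hn1 : 1 ≤ n := by omega
  refine ⟨⟨TB_wdg hm1 hn1 hx (by omega) hn hU.1.1,
    TB_wdg hm1 hn1 (by omega) hxm hn hU.1.2⟩, ?_⟩
  obtain ⟨⟨⟨l, l', hl, hl', hL⟩, -⟩, ⟨t, t', ht, ht', hT⟩⟩ := hU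
  have s : RE x (x + 3 * h) 0 (2 * h) ⊆ RE 0 m 0 n := RE_subset hx hxm le_rfl hn
  have s1 : LRE x (x + 3 * h) h (2 * h) ⊆ RE x (x + 3 * h) h (2 * h) := LRE_subset_RE
  have s2 : RE x (x + 3 * h) h (2 * h) ⊆ RE x (x + 3 * h) 0 (2 * h) :=
    RE_subset le_rfl le_rfl (by omega) le_rfl
  have hT' : Reach (↑G ∩ ↑(RE x (x + 3 * h) h (2 * h))) (x, t) (x + 3 * h, t') :=
    hT.mono (Set.inter_subset_inter_right _ (by exact_mod_cast s1))
  have hL' : Reach (↑G ∩ ↑(RE x (x + h) 0 (2 * h))) (l, 0) (l', 2 * h) :=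
    hL.mono (Set.inter_subset_inter_right _ (by exact_mod_cast TBE_subset_RE))
  have mt : Reach (↑G ∩ ↑(RE x (x + 3 * h) 0 (2 * h))) (x, t) (l, 0) :=
    cross_meet (F := ↑G) (A := x) (B := x + 3 * h) (C := 0) (D := 2 * h) (a := x) (b := x + h)
      (c := h) (d := 2 * h) le_rfl (by omega) (by omega) (by omega) (by omega) le_rfl hT'
      le_rfl (by simp only; omega) hL' (by simp only; omega) le_rfl
  have vl : VA m n (-n) m (l, 0) G := VA_bot hm1 hn1 (by omega)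
  have vt := (wdg_reach s vl mt.symm).2
  exact ⟨t, t', ht, ht', (wdg_reach (s1.trans (s2.trans s)) vt hT).1⟩

/-- the dual arch -/
theorem FS_arch {m n h x : ℤ} (hh : 1 ≤ h) (hx : 0 ≤ x) (hxm : x + 3 * h ≤ m) (hn : 2 * h ≤ n)
    {F : Finset Edg} (hU : UC h x (hat m n F)) {v : Vtx}
    (hX : x + h ≤ m - v.1 ∧ m - v.1 < x + 2 * h) (hY : n - v.2 < h) :
    ¬ WS m n (-n) m v F := by
  refine FS_of_block (by omega) (by omega) ?_
  intro g hg hD
  exact UC_block hh (UC_wdg hh hx hxm hn hU) (f := dv m n v) (g := g) ⟨hX, hY⟩ (by omega) hD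

/-- the dual long crossings -/
theorem FS_long {m n h : ℤ} (hm : 1 ≤ m) (hn : 1 ≤ n) (hh : 1 ≤ h) (hhm : h ≤ m) (hhn : h ≤ n)
    {F : Finset Edg} (hU : TC m n h (hat m n F)) {v : Vtx} (hX : h < v.1 ∧ v.1 ≤ m)
    (hY : h < v.2) : ¬ WS m n (-n) m v F := by
  refine FS_of_block hm hn ?_
  intro g hg hD
  have e1 : (dv m n v).1 = m - v.1 := rfl
  have e2 : (dv m n v).2 = n - v.2 := rfl
  exact TC_block hm hh hn (TC_wdg hm hn hh hhm hhn hU) (f := dv m n v) (g := g)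
    (by rw [e1, e2]; omega) (by omega) hD

end H49AT
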